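import Mathlib

/-!
Completeness of a family of exponentials in `L²` of a probability measure on the line from the
Parseval identity for all exponentials.
-/

set_option autoImplicit false
set_option linter.unusedSectionVars false
open MeasureTheory Filter Topology
open scoped ENNReal Real

namespace Q83.Frac

/-- The exponential `x ↦ exp (2 π i ξ x)`. -/
noncomputable def ee (ξ x : ℝ) : ℂ := Complex.exp (2 * π * Complex.I * ((ξ * x : ℝ) : ℂ))

lemma ee_eq (ξ x : ℝ) : ee ξ x = Complex.exp (((2 * π * (ξ * x) : ℝ) : ℂ) * Complex.I) := by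
  unfold ee
  congr 1
  push_cast
  ring

lemma norm_ee (ξ x : ℝ) : ‖ee ξ x‖ = 1 := by
  rw [ee_eq]
  exact Complex.norm_exp_ofReal_mul_I _

lemma ee_add (ξ η x : ℝ) : ee (ξ + η) x = ee ξ x * ee η x := by
  unfold ee
  rw [← Complex.exp_add]
  congr 1
  push_cast
  ring

lemma ee_zero (x : ℝ) : ee 0 x = 1 := by
  unfold ee
  simp

lemma ee_conj (ξ x : ℝ) : (starRingEnd ℂ) (ee ξ x) = ee (-ξ) x := by
  rw [ee_eq, ee_eq, ← Complex.exp_conj]
  congr 1
  rw [map_mul, Complex.conj_ofReal, Complex.conj_I]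
  push_cast
  ring

lemma continuous_ee (ξ : ℝ) : Continuous (ee ξ) := by
  unfold ee
  fun_prop

/-- The Fourier transform `∫ exp (2 π i ξ x) dν(x)`. -/
noncomputable def FT (ν : Measure ℝ) (ξ : ℝ) : ℂ := ∫ x, ee ξ x ∂ν

section abstract

variable {H : Type*} [NormedAddCommGroup H] [InnerProductSpace ℂ H]

lemma inner_zero_of_parseval {κ : Type*} {v : κ → H} (hv : Orthonormal ℂ v) (u f : H)
    (hp : HasSum (fun i => ‖(inner ℂ (v i) u : ℂ)‖ ^ 2) (‖u‖ ^ 2)) (hf : ∀ i, inner ℂ (v i) f = 0) :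
    inner ℂ u f = 0 := by
  classical
  have h1 : ∀ s : Finset κ, ‖(inner ℂ u f : ℂ)‖ ^ 2 ≤
      (‖u‖ ^ 2 - ∑ i ∈ s, ‖(inner ℂ (v i) u : ℂ)‖ ^ 2) * ‖f‖ ^ 2 := by
    intro s
    set w := ∑ i ∈ s, (inner ℂ (v i) u : ℂ) • v i with hw
    have e1 : inner ℂ w f = 0 := by
      rw [hw, sum_inner]
      refine Finset.sum_eq_zero fun i _ => ?_
      rw [inner_smul_left, hf, mul_zero]
    have e2 : inner ℂ u f = inner ℂ (u - w) f := by rw [inner_sub_left, e1, sub_zero]
    have e3 : ‖u - w‖ ^ 2 = ‖u‖ ^ 2 - ∑ i ∈ s, ‖(inner ℂ (v i) u : ℂ)‖ ^ 2 := by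
      have k1 : inner ℂ w (u - w) = 0 := by
        rw [hw, sum_inner]
        refine Finset.sum_eq_zero fun i hi => ?_
        rw [inner_smul_left, inner_sub_right, hv.inner_right_sum _ hi, sub_self, mul_zero]
      have k2 : ‖u‖ ^ 2 = ‖w‖ ^ 2 + ‖u - w‖ ^ 2 := by
        have := norm_add_sq (𝕜 := ℂ) w (u - w)
        rw [k1] at this
        simpa using this
      have k3 : ‖w‖ ^ 2 = ∑ i ∈ s, ‖(inner ℂ (v i) u : ℂ)‖ ^ 2 := by
        have k4 : (inner ℂ w w : ℂ) = ((‖w‖ ^ 2 : ℝ) : ℂ) := by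
          rw [inner_self_eq_norm_sq_to_K]; norm_cast
        have k5 := hv.inner_sum (fun i => (inner ℂ (v i) u : ℂ)) (fun i => (inner ℂ (v i) u : ℂ)) s
        rw [← hw, k4] at k5
        have k6 : ∑ i ∈ s, (starRingEnd ℂ) (inner ℂ (v i) u : ℂ) * (inner ℂ (v i) u : ℂ) =
            ((∑ i ∈ s, ‖(inner ℂ (v i) u : ℂ)‖ ^ 2 : ℝ) : ℂ) := by
          push_cast
          refine Finset.sum_congr rfl fun i _ => ?_
          rw [mul_comm, Complex.mul_conj, Complex.normSq_eq_norm_sq]
          push_cast; rfl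
        rw [k6] at k5
        exact_mod_cast k5
      rw [k2, k3]; ring
    rw [e2, ← e3, ← mul_pow]
    exact pow_le_pow_left₀ (norm_nonneg _) (norm_inner_le_norm _ _) 2
  have h2 : Tendsto (fun s : Finset κ => (‖u‖ ^ 2 - ∑ i ∈ s, ‖(inner ℂ (v i) u : ℂ)‖ ^ 2) * ‖f‖ ^ 2)
      atTop (𝓝 ((‖u‖ ^ 2 - ‖u‖ ^ 2) * ‖f‖ ^ 2)) :=
    (tendsto_const_nhds.sub hp).mul_const _
  rw [sub_self, zero_mul] at h2
  have h3 := ge_of_tendsto' h2 h1
  have h4 : ‖(inner ℂ u f : ℂ)‖ ^ 2 = 0 := le_antisymm h3 (by positivity)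
  simpa using h4

end abstract

section uniqueness

variable (ν : Measure ℝ) [IsFiniteMeasure ν]

lemma charFun_withDensity (w : ℝ → ℝ) (hw : Integrable w ν) (hw0 : ∀ x, 0 ≤ w x) (t : ℝ) :
    charFun (ν.withDensity fun x => ENNReal.ofReal (w x)) t =
      ∫ x, (w x : ℂ) * Complex.exp (t * x * Complex.I) ∂ν := by
  rw [charFun_apply_real]
  obtain ⟨w', hw'm, hw'⟩ := hw.aestronglyMeasurable.aemeasurable
  have e1 : (ν.withDensity fun x => ENNReal.ofReal (w x)) =
      ν.withDensity fun x => ENNReal.ofReal (w' x) := by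
    apply withDensity_congr_ae
    filter_upwards [hw'] with x hx
    rw [hx]
  rw [e1, integral_withDensity_eq_integral_toReal_smul (hw'm.ennreal_ofReal)
    (Filter.Eventually.of_forall fun x => ENNReal.ofReal_lt_top)]
  apply integral_congr_ae
  filter_upwards [hw'] with x hx
  rw [← hx, ENNReal.toReal_ofReal (hw0 x), Complex.real_smul]

/-- A real integrable function whose Fourier coefficients all vanish is zero. -/
lemma real_zero (u : ℝ → ℝ) (hu : Integrable u ν)
    (h : ∀ t : ℝ, ∫ x, (u x : ℂ) * Complex.exp (t * x * Complex.I) ∂ν = 0) : u =ᵐ[ν] 0 := by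
  have hp : Integrable (fun x => max (u x) 0) ν := hu.pos_part
  have hn : Integrable (fun x => max (-u x) 0) ν := hu.neg_part
  have hpc : ∀ t : ℝ, Integrable (fun x => ((max (u x) 0 : ℝ) : ℂ) *
      Complex.exp (t * x * Complex.I)) ν := by
    intro t
    refine hp.ofReal.mul_bdd (c := 1) (by fun_prop) (Filter.Eventually.of_forall fun x => ?_)
    have : (t : ℂ) * x * Complex.I = ((t * x : ℝ) : ℂ) * Complex.I := by push_cast; ring
    rw [this, Complex.norm_exp_ofReal_mul_I]
  have hnc : ∀ t : ℝ, Integrable (fun x => ((max (-u x) 0 : ℝ) : ℂ) *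
      Complex.exp (t * x * Complex.I)) ν := by
    intro t
    refine hn.ofReal.mul_bdd (c := 1) (by fun_prop) (Filter.Eventually.of_forall fun x => ?_)
    have : (t : ℂ) * x * Complex.I = ((t * x : ℝ) : ℂ) * Complex.I := by push_cast; ring
    rw [this, Complex.norm_exp_ofReal_mul_I]
  have hfp : IsFiniteMeasure (ν.withDensity fun x => ENNReal.ofReal (max (u x) 0)) :=
    isFiniteMeasure_withDensity_ofReal hp.hasFiniteIntegral
  have hfn : IsFiniteMeasure (ν.withDensity fun x => ENNReal.ofReal (max (-u x) 0)) :=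
    isFiniteMeasure_withDensity_ofReal hn.hasFiniteIntegral
  have heq : (ν.withDensity fun x => ENNReal.ofReal (max (u x) 0)) =
      ν.withDensity fun x => ENNReal.ofReal (max (-u x) 0) := by
    apply Measure.ext_of_charFun
    funext t
    rw [charFun_withDensity ν _ hp (fun x => le_max_right _ _),
      charFun_withDensity ν _ hn (fun x => le_max_right _ _), ← sub_eq_zero,
      ← integral_sub (hpc t) (hnc t), ← h t]
    congr 1
    funext x
    rw [← sub_mul, ← Complex.ofReal_sub]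
    congr 2
    rcases le_total (u x) 0 with h1 | h1
    · rw [max_eq_right h1, max_eq_left (by linarith)]; ring
    · rw [max_eq_left h1, max_eq_right (by linarith)]; ring
  rw [withDensity_eq_iff_of_sigmaFinite (by fun_prop) (by fun_prop)] at heq
  filter_upwards [heq] with x hx
  rw [ENNReal.ofReal_eq_ofReal_iff (le_max_right _ _) (le_max_right _ _)] at hx
  rcases le_total (u x) 0 with h1 | h1
  · rw [max_eq_right h1, max_eq_left (by linarith)] at hx
    simp only [Pi.zero_apply]; linarith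
  · rw [max_eq_left h1, max_eq_right (by linarith)] at hx
    simpa using hx

lemma norm_cexp (t x : ℝ) : ‖Complex.exp ((t : ℂ) * x * Complex.I)‖ = 1 := by
  have : (t : ℂ) * x * Complex.I = ((t * x : ℝ) : ℂ) * Complex.I := by push_cast; ring
  rw [this, Complex.norm_exp_ofReal_mul_I]

/-- A complex integrable function whose Fourier coefficients all vanish is zero. -/
lemma complex_zero (f : ℝ → ℂ) (hf : Integrable f ν)
    (h : ∀ t : ℝ, ∫ x, f x * Complex.exp (t * x * Complex.I) ∂ν = 0) : f =ᵐ[ν] 0 := by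
  have hi : ∀ t : ℝ, Integrable (fun x => f x * Complex.exp (t * x * Complex.I)) ν := by
    intro t
    refine hf.mul_bdd (c := 1) (by fun_prop) (Filter.Eventually.of_forall fun x => ?_)
    rw [norm_cexp]
  have hc : ∀ t : ℝ, ∫ x, (starRingEnd ℂ) (f x) * Complex.exp (t * x * Complex.I) ∂ν = 0 := by
    intro t
    have h1 := congrArg (starRingEnd ℂ) (h (-t))
    rw [← integral_conj, map_zero] at h1
    rw [← h1]
    congr 1
    funext x
    rw [map_mul, ← Complex.exp_conj]
    congr 2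
    rw [map_mul, map_mul, Complex.conj_ofReal, Complex.conj_ofReal, Complex.conj_I]
    push_cast
    ring
  have hic : ∀ t : ℝ, Integrable (fun x => (starRingEnd ℂ) (f x) *
      Complex.exp (t * x * Complex.I)) ν := by
    intro t
    have hfc : Integrable (fun x => (starRingEnd ℂ) (f x)) ν :=
      (LinearIsometryEquiv.integrable_comp_iff RCLike.conjLIE).2 hf
    refine hfc.mul_bdd (c := 1) (by fun_prop) (Filter.Eventually.of_forall fun x => ?_)
    rw [norm_cexp]
  have hre : (fun x => (f x).re) =ᵐ[ν] 0 := by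
    apply real_zero ν _ hf.re
    intro t
    have h1 : ∀ x, ((f x).re : ℂ) * Complex.exp (t * x * Complex.I) = (1 / 2 : ℂ) *
        (f x * Complex.exp (t * x * Complex.I) +
          (starRingEnd ℂ) (f x) * Complex.exp (t * x * Complex.I)) := by
      intro x
      rw [← add_mul, Complex.add_conj]
      push_cast
      ring
    change ∫ x, ((f x).re : ℂ) * Complex.exp (t * x * Complex.I) ∂ν = 0
    simp only [h1]
    rw [integral_const_mul, integral_add (hi t) (hic t), h t, hc t]
    simp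
  have him : (fun x => (f x).im) =ᵐ[ν] 0 := by
    apply real_zero ν _ hf.im
    intro t
    have h1 : ∀ x, ((f x).im : ℂ) * Complex.exp (t * x * Complex.I) = (-Complex.I / 2 : ℂ) *
        (f x * Complex.exp (t * x * Complex.I) -
          (starRingEnd ℂ) (f x) * Complex.exp (t * x * Complex.I)) := by
      intro x
      rw [← sub_mul, Complex.sub_conj]
      have := Complex.I_mul_I
      push_cast
      linear_combination ((f x).im * Complex.exp (t * x * Complex.I) : ℂ) * this
    change ∫ x, ((f x).im : ℂ) * Complex.exp (t * x * Complex.I) ∂ν = 0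
    simp only [h1]
    rw [integral_const_mul, integral_sub (hi t) (hic t), h t, hc t]
    simp
  filter_upwards [hre, him] with x h1 h2
  exact Complex.ext h1 h2

end uniqueness

section main

variable (ν : Measure ℝ) [IsProbabilityMeasure ν]

lemma memLp_ee (ξ : ℝ) : MemLp (ee ξ) 2 ν :=
  MemLp.of_bound (continuous_ee ξ).aestronglyMeasurable 1
    (Filter.Eventually.of_forall fun x => (norm_ee ξ x).le)

/-- The exponential as an element of `L²`. -/
noncomputable def el (ξ : ℝ) : Lp ℂ 2 ν := (memLp_ee ν ξ).toLp _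

lemma inner_toLp'' (f g : ℝ → ℂ) (hf : MemLp f 2 ν) (hg : MemLp g 2 ν) :
    inner ℂ (hf.toLp f) (hg.toLp g) = ∫ x, (starRingEnd ℂ) (f x) * g x ∂ν := by
  rw [L2.inner_def]
  apply integral_congr_ae
  filter_upwards [hf.coeFn_toLp, hg.coeFn_toLp] with x h1 h2
  rw [h1, h2]
  simp [mul_comm]

lemma inner_el (ξ η : ℝ) : inner ℂ (el ν ξ) (el ν η) = FT ν (η - ξ) := by
  unfold el FT
  rw [inner_toLp'']
  congr 1
  funext x
  rw [ee_conj, ← ee_add]
  congr 1
  ring

lemma FT_zero : FT ν 0 = 1 := by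
  unfold FT
  simp only [ee_zero]
  simp

lemma norm_el (ξ : ℝ) : ‖el ν ξ‖ = 1 := by
  have h1 : (inner ℂ (el ν ξ) (el ν ξ) : ℂ) = ((‖el ν ξ‖ ^ 2 : ℝ) : ℂ) := by
    rw [inner_self_eq_norm_sq_to_K]; norm_cast
  rw [inner_el, sub_self, FT_zero] at h1
  have h2 : ‖el ν ξ‖ ^ 2 = 1 := by exact_mod_cast h1.symm
  nlinarith [norm_nonneg (el ν ξ)]

lemma orthonormal_el {κ : Type*} (l : κ → ℝ) (h : ∀ i j, i ≠ j → FT ν (l i - l j) = 0) :
    Orthonormal ℂ (fun i => el ν (l i)) := by
  classical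
  refine ⟨fun i => norm_el ν _, fun i j hij => ?_⟩
  change inner ℂ (el ν (l i)) (el ν (l j)) = 0
  rw [inner_el]
  exact h j i hij.symm

/-- Completeness from the Parseval identity. -/
theorem complete_of_parseval {κ : Type*} (l : κ → ℝ) (h : ∀ i j, i ≠ j → FT ν (l i - l j) = 0)
    (hp : ∀ ξ : ℝ, HasSum (fun i => ‖FT ν (ξ - l i)‖ ^ 2) 1) (f : ℝ → ℂ) (hf : MemLp f 2 ν)
    (h0 : ∀ i, ∫ x, f x * ee (-l i) x ∂ν = 0) : f =ᵐ[ν] 0 := by
  have hall : ∀ ξ, ∫ x, f x * ee (-ξ) x ∂ν = 0 := by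
    intro ξ
    have h1 : ∀ ξ, inner ℂ (el ν ξ) (hf.toLp f) = ∫ x, f x * ee (-ξ) x ∂ν := by
      intro ξ
      unfold el
      rw [inner_toLp'']
      congr 1
      funext x
      rw [ee_conj, mul_comm]
    rw [← h1]
    apply inner_zero_of_parseval (orthonormal_el ν l h)
    · rw [norm_el, one_pow]
      have := hp ξ
      convert this using 3
      rw [inner_el]
    · intro i
      rw [h1]
      exact h0 i
  apply complex_zero ν f (hf.integrable (by norm_num))
  intro t
  have := hall (-(t / (2 * π)))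
  rw [← this]
  congr 1
  funext x
  congr 1
  unfold ee
  congr 1
  have hpi : (π : ℂ) ≠ 0 := by exact_mod_cast Real.pi_ne_zero
  push_cast
  field_simp

end main

end Q83.Frac
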