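import Mathlib

/-!
Existence of the equal weight invariant probability measure of an iterated function system on the
line with maps `x ↦ (x + d i) / R`.
-/

set_option autoImplicit false
set_option linter.unusedSectionVars false
open MeasureTheory Filter Topology
open scoped ENNReal

namespace Q83.Frac

section

variable {ι : Type} [Fintype ι] [Nonempty ι] [MeasurableSpace ι] [MeasurableSingletonClass ι]

/-- The uniform probability measure on a finite type. -/
noncomputable def unif (ι : Type) [Fintype ι] [MeasurableSpace ι] : Measure ι :=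
  (Fintype.card ι : ℝ≥0∞)⁻¹ • ∑ i : ι, Measure.dirac i

lemma card_ne_zero' : (Fintype.card ι : ℝ≥0∞) ≠ 0 := by
  simp [Fintype.card_ne_zero]

lemma unif_apply (t : Set ι) : unif ι t =
    (Fintype.card ι : ℝ≥0∞)⁻¹ * ∑ i, t.indicator (fun _ => (1 : ℝ≥0∞)) i := by
  unfold unif
  rw [Measure.smul_apply, smul_eq_mul, Measure.finsetSum_apply]
  congr 1
  refine Finset.sum_congr rfl fun i _ => ?_
  rw [Measure.dirac_apply' _ (Set.toFinite t).measurableSet]
  rfl

instance instProbUnif : IsProbabilityMeasure (unif ι) := by
  constructor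
  rw [unif_apply]
  simp only [Set.indicator_univ, Finset.sum_const, Finset.card_univ, nsmul_eq_mul, mul_one]
  exact ENNReal.inv_mul_cancel (card_ne_zero' (ι := ι)) (ENNReal.natCast_ne_top _)

/-- The Bernoulli measure on sequences. -/
noncomputable def PP (ι : Type) [Fintype ι] [Nonempty ι] [MeasurableSpace ι]
    [MeasurableSingletonClass ι] : Measure (ℕ → ι) := Measure.infinitePi fun _ : ℕ => unif ι

noncomputable instance instProbPP : IsProbabilityMeasure (PP ι) := by
  unfold PP; infer_instance

/-- Put a letter in front of a sequence. -/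
def cons (i : ι) (ω : ℕ → ι) : ℕ → ι := fun n => Nat.casesOn n i ω

lemma measurable_cons (i : ι) : Measurable (cons i) := by
  rw [measurable_pi_iff]
  intro n
  cases n with
  | zero => exact measurable_const
  | succ n => exact measurable_pi_apply n

/-- The Bernoulli measure is invariant under adding a random first letter. -/
lemma PP_eq : PP ι = (Fintype.card ι : ℝ≥0∞)⁻¹ • ∑ i : ι, (PP ι).map (cons i) := by
  classical
  symm
  unfold PP
  apply Measure.eq_infinitePi
  intro s t ht
  rw [Measure.smul_apply, smul_eq_mul, Measure.finsetSum_apply]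
  have hs : MeasurableSet (Set.pi (s : Set ℕ) t) :=
    MeasurableSet.pi s.countable_toSet fun i _ => ht i
  set s' : Finset ℕ := (s.erase 0).image (fun n => n - 1) with hs'
  have hmem : ∀ i : ι, ((Measure.infinitePi fun _ : ℕ => unif ι).map (cons i)) (Set.pi (s : Set ℕ) t)
      = (if 0 ∈ s then (t 0).indicator (fun _ => (1 : ℝ≥0∞)) i else 1) *
        ∏ n ∈ s', unif ι (t (n + 1)) := by
    intro i
    rw [Measure.map_apply (measurable_cons i) hs]
    by_cases h0 : 0 ∈ s ∧ i ∉ t 0
    · obtain ⟨h1, h2⟩ := h0
      rw [if_pos h1, Set.indicator_of_notMem h2, zero_mul]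
      have : cons i ⁻¹' (Set.pi (s : Set ℕ) t) = ∅ := by
        ext ω
        simp only [Set.mem_preimage, Set.mem_pi, Set.mem_empty_iff_false, iff_false]
        intro h
        exact h2 (h 0 h1)
      rw [this, measure_empty]
    · have h3 : (if 0 ∈ s then (t 0).indicator (fun _ => (1 : ℝ≥0∞)) i else 1) = 1 := by
        split_ifs with h1
        · rw [Set.indicator_of_mem]
          by_contra h2
          exact h0 ⟨h1, h2⟩
        · rfl
      rw [h3, one_mul]
      have h4 : cons i ⁻¹' (Set.pi (s : Set ℕ) t) = Set.pi (s' : Set ℕ) (fun n => t (n + 1)) := by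
        ext ω
        simp only [Set.mem_preimage, Set.mem_pi]
        constructor
        · intro h n hn
          simp only [hs', Finset.coe_image, Set.mem_image, Finset.coe_erase] at hn
          obtain ⟨m, hm, rfl⟩ := hn
          have hm0 : m ≠ 0 := by
            intro h'
            exact hm.2 (by rw [h']; rfl)
          obtain ⟨k, rfl⟩ := Nat.exists_eq_succ_of_ne_zero hm0
          exact h (k + 1) hm.1
        · intro h n hn
          cases n with
          | zero =>
            by_contra h5
            exact h0 ⟨hn, h5⟩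
          | succ k =>
            apply h k
            simp only [hs', Finset.coe_image, Set.mem_image, Finset.coe_erase]
            exact ⟨k + 1, ⟨hn, by simp⟩, by simp⟩
      rw [h4]
      exact Measure.infinitePi_pi _ (fun n _ => ht (n + 1))
  simp only [hmem]
  rw [← Finset.sum_mul, ← mul_assoc]
  have hprod : ∏ n ∈ s', unif ι (t (n + 1)) = ∏ n ∈ s.erase 0, unif ι (t n) := by
    rw [hs', Finset.prod_image]
    · refine Finset.prod_congr rfl fun n hn => ?_
      have : n ≠ 0 := (Finset.mem_erase.1 hn).1
      congr 3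
      omega
    · intro a ha b hb hab
      have h1 : a ≠ 0 := (Finset.mem_erase.1 ha).1
      have h2 : b ≠ 0 := (Finset.mem_erase.1 hb).1
      have h3 : a - 1 = b - 1 := hab
      omega
  rw [hprod]
  by_cases h0 : 0 ∈ s
  · rw [← Finset.mul_prod_erase s _ h0]
    congr 1
    simp only [if_pos h0]
    exact (unif_apply (t 0)).symm
  · rw [Finset.erase_eq_of_notMem h0]
    simp only [if_neg h0, Finset.sum_const, Finset.card_univ, nsmul_eq_mul, mul_one]
    rw [ENNReal.inv_mul_cancel (card_ne_zero' (ι := ι)) (ENNReal.natCast_ne_top _), one_mul]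

variable (d : ι → ℝ) (R : ℝ)

/-- The coding map. -/
noncomputable def XX (ω : ℕ → ι) : ℝ := ∑' k, d (ω k) / R ^ (k + 1)

variable (hR : 1 < R)

include hR

lemma summable_XX (ω : ℕ → ι) : Summable fun k => d (ω k) / R ^ (k + 1) := by
  obtain ⟨D, hD⟩ := (Set.finite_range d).isBounded.exists_norm_le
  have hg : Summable fun k : ℕ => D * (1 / R) ^ (k + 1) := by
    have h := (summable_geometric_of_lt_one (r := 1 / R) (by positivity)
      (by rw [div_lt_one (by linarith)]; exact hR))
    exact ((summable_nat_add_iff 1).2 h).mul_left D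
  refine hg.of_norm_bounded fun k => ?_
  rw [norm_div, norm_pow, Real.norm_of_nonneg (by linarith : (0:ℝ) ≤ R), one_div, inv_pow,
    ← div_eq_mul_inv]
  gcongr
  exact hD _ ⟨ω k, rfl⟩

lemma XX_cons (i : ι) (ω : ℕ → ι) : XX d R (cons i ω) = (XX d R ω + d i) / R := by
  unfold XX
  rw [(summable_XX d R hR _).tsum_eq_zero_add]
  have h1 : ∀ k, d (cons i ω (k + 1)) / R ^ (k + 1 + 1) = (d (ω k) / R ^ (k + 1)) * R⁻¹ := by
    intro k
    have : cons i ω (k + 1) = ω k := rfl
    rw [this, pow_succ]
    field_simp
  simp only [h1]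
  rw [tsum_mul_right]
  have : cons i ω 0 = i := rfl
  rw [this]
  field_simp
  ring

lemma measurable_XX : Measurable (XX (ι := ι) d R) := by
  have h : ∀ ω, Tendsto (fun n => ∑ k ∈ Finset.range n, d (ω k) / R ^ (k + 1)) atTop
      (𝓝 (XX d R ω)) := fun ω => (summable_XX d R hR ω).hasSum.tendsto_sum_nat
  refine measurable_of_tendsto_metrizable (f := fun n ω => ∑ k ∈ Finset.range n,
    d (ω k) / R ^ (k + 1)) (fun n => ?_) (tendsto_pi_nhds.2 h)
  refine Finset.measurable_sum _ fun k _ => ?_
  exact ((measurable_of_finite d).comp (measurable_pi_apply k)).div_const _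

/-- The invariant measure. -/
noncomputable def inv : Measure ℝ := (PP ι).map (XX d R)

lemma isProb_inv : IsProbabilityMeasure (inv (ι := ι) d R) :=
  Measure.isProbabilityMeasure_map (measurable_XX d R hR).aemeasurable

lemma inv_eq : inv (ι := ι) d R =
    (Fintype.card ι : ℝ≥0∞)⁻¹ • ∑ i : ι, (inv (ι := ι) d R).map (fun x => (x + d i) / R) := by
  have hX := measurable_XX (ι := ι) d R hR
  have hm : ∀ i : ι, Measurable fun x : ℝ => (x + d i) / R := fun i =>
    (measurable_id.add_const _).div_const _
  unfold inv
  conv_lhs => rw [PP_eq]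
  rw [Measure.map_smul, Measure.map_finset_sum hX.aemeasurable]
  congr 1
  refine Finset.sum_congr rfl fun i _ => ?_
  rw [Measure.map_map hX (measurable_cons i), Measure.map_map (hm i) hX]
  congr 1
  funext ω
  exact XX_cons d R hR i ω

/-- Bounds for the support. -/
lemma inv_bound {D : ℝ} (h0 : ∀ i, 0 ≤ d i) (hD : ∀ i, d i ≤ D) :
    ∀ᵐ x ∂(inv (ι := ι) d R), 0 ≤ x ∧ x ≤ D / (R - 1) := by
  have hX := measurable_XX (ι := ι) d R hR
  unfold inv
  rw [ae_map_iff hX.aemeasurable (measurableSet_Icc (a := 0) (b := D / (R - 1)))]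
  refine Filter.Eventually.of_forall fun ω => ?_
  have hR0 : 0 < R := by linarith
  constructor
  · exact tsum_nonneg fun k => div_nonneg (h0 _) (by positivity)
  · have hg := (hasSum_geometric_of_lt_one (r := 1 / R) (by positivity)
      (by rw [div_lt_one hR0]; exact hR)).mul_left (D / R)
    have hsum : D / R * (1 - 1 / R)⁻¹ = D / (R - 1) := by
      have : R - 1 ≠ 0 := by linarith
      field_simp
    rw [hsum] at hg
    rw [← hg.tsum_eq]
    refine Summable.tsum_le_tsum (fun k => ?_) (summable_XX d R hR ω) hg.summable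
    rw [one_div, inv_pow, pow_succ]
    have : D / R * (R ^ k)⁻¹ = D / (R ^ k * R) := by field_simp
    rw [this]
    have := hD (ω k)
    gcongr

end

end Q83.Frac
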