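import Pool.Agent.Q83.Frac.Complete

/-!
Spectra built from levels: a product of squared cosines `cos² (π η / z i)` and numbers `l i` with
`l i ∈ z i (ℤ + 1/2)`, `l j ∈ z i ℤ` for `i < j`.
-/

set_option autoImplicit false
set_option linter.unusedSectionVars false
open MeasureTheory Filter Topology
open scoped ENNReal Real

namespace Q83.Frac

section levels

variable (z l : ℕ → ℝ) (hz : ∀ i, 0 < z i) (h1 : ∀ i, ∃ n : ℤ, l i = z i * (n + 1 / 2))
  (h2 : ∀ i j, i < j → ∃ n : ℤ, l j = z i * n)

/-- The partial product. -/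
noncomputable def GG (m : ℕ) (η : ℝ) : ℝ := ∏ i ∈ Finset.range m, Real.cos (π * η / z i) ^ 2

/-- The subset sums. -/
noncomputable def lam (S : Finset ℕ) : ℝ := ∑ j ∈ S, l j

lemma GG_nonneg (m : ℕ) (η : ℝ) : 0 ≤ GG z m η := Finset.prod_nonneg fun _ _ => sq_nonneg _

lemma GG_le_one (m : ℕ) (η : ℝ) : GG z m η ≤ 1 :=
  Finset.prod_le_one (fun _ _ => sq_nonneg _) fun _ _ => Real.cos_sq_le_one _

include hz h2 in
lemma GG_sub (m : ℕ) (η : ℝ) : GG z m (η - l m) = GG z m η := by
  unfold GG
  refine Finset.prod_congr rfl fun i hi => ?_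
  obtain ⟨n, hn⟩ := h2 i m (Finset.mem_range.1 hi)
  have hzi := (hz i).ne'
  have e : π * (η - l m) / z i = π * η / z i - n * π := by
    rw [hn]
    field_simp
  rw [e, Real.cos_sub_int_mul_pi, mul_pow, ← zpow_natCast, ← zpow_mul, mul_comm n, zpow_mul]
  norm_num

include hz h1 in
lemma cos_half (m : ℕ) (η : ℝ) :
    Real.cos (π * (η - l m) / z m) ^ 2 = Real.sin (π * η / z m) ^ 2 := by
  obtain ⟨n, hn⟩ := h1 m
  have hzm := (hz m).ne'
  have e : π * (η - l m) / z m = (π * η / z m - π / 2) - n * π := by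
    rw [hn]
    field_simp
    ring
  rw [e, Real.cos_sub_int_mul_pi, Real.cos_sub_pi_div_two, mul_pow, ← zpow_natCast, ← zpow_mul,
    mul_comm n, zpow_mul]
  norm_num

include hz h1 h2 in
lemma sum_GG (m : ℕ) (ξ : ℝ) :
    ∑ S ∈ (Finset.range m).powerset, GG z m (ξ - lam l S) = 1 := by
  induction m with
  | zero => simp [GG]
  | succ m ih =>
    rw [Finset.range_add_one, Finset.sum_powerset_insert Finset.notMem_range_self,
      ← Finset.sum_add_distrib, ← ih]
    refine Finset.sum_congr rfl fun S hS => ?_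
    have hmS : m ∉ S := fun h => Finset.notMem_range_self (Finset.mem_powerset.1 hS h)
    have e1 : lam l (insert m S) = l m + lam l S := by
      unfold lam
      rw [Finset.sum_insert hmS]
    have e2 : ∀ η, GG z (m + 1) η = GG z m η * Real.cos (π * η / z m) ^ 2 := by
      intro η
      unfold GG
      rw [Finset.prod_range_succ]
    have e3 : ξ - (l m + lam l S) = (ξ - lam l S) - l m := by ring
    rw [e1, e2, e2, e3, GG_sub z l hz h2, cos_half z l hz h1, ← mul_add, Real.cos_sq_add_sin_sq,
      mul_one]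

include h2 in
lemma lam_high (i : ℕ) (S : Finset ℕ) (hS : ∀ j ∈ S, i < j) : ∃ n : ℤ, lam l S = z i * n := by
  classical
  induction S using Finset.induction_on with
  | empty => exact ⟨0, by simp [lam]⟩
  | insert a S ha ih =>
    obtain ⟨n, hn⟩ := ih fun j hj => hS j (Finset.mem_insert_of_mem hj)
    obtain ⟨k, hk⟩ := h2 i a (hS a (Finset.mem_insert_self _ _))
    refine ⟨k + n, ?_⟩
    unfold lam at hn ⊢
    rw [Finset.sum_insert ha, hn, hk]
    push_cast
    ring

include hz h1 h2 in
lemma GG_zero (m : ℕ) (S S' : Finset ℕ) (hS : S ⊆ Finset.range m) (hS' : S' ⊆ Finset.range m)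
    (hne : S ≠ S') : GG z m (lam l S - lam l S') = 0 := by
  classical
  -- the first place where the two sets differ
  have hex : ∃ i, ¬ (i ∈ S ↔ i ∈ S') := by
    by_contra hcon
    push Not at hcon
    exact hne (Finset.ext hcon)
  set i := Nat.find hex with hi
  have hi1 : ¬ (i ∈ S ↔ i ∈ S') := Nat.find_spec hex
  have hi2 : ∀ j < i, (j ∈ S ↔ j ∈ S') := fun j hj => by
    by_contra h
    exact Nat.find_min hex hj h
  have him : i < m := by
    by_cases h : i ∈ S
    · exact Finset.mem_range.1 (hS h)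
    · have : i ∈ S' := by
        by_contra h'
        exact hi1 ⟨fun a => absurd a h, fun a => absurd a h'⟩
      exact Finset.mem_range.1 (hS' this)
  -- decomposition
  have hdec : ∀ T : Finset ℕ, lam l T = lam l (T.filter (· < i)) +
      ((if i ∈ T then l i else 0) + lam l (T.filter (i < ·))) := by
    intro T
    unfold lam
    rw [← Finset.sum_filter_add_sum_filter_not T (· < i)]
    congr 1
    rw [← Finset.sum_filter_add_sum_filter_not (T.filter (fun x => ¬ x < i)) (· = i),
      Finset.filter_filter, Finset.filter_filter]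
    congr 1
    · have : T.filter (fun a => ¬ a < i ∧ a = i) = if i ∈ T then {i} else ∅ := by
        ext a
        split_ifs with h <;> simp only [Finset.mem_filter, Finset.mem_singleton,
          Finset.notMem_empty, iff_false, not_and]
        · constructor
          · rintro ⟨_, _, h3⟩; exact h3
          · rintro rfl; exact ⟨h, lt_irrefl _, rfl⟩
        · rintro h4 _ rfl; exact h h4
      rw [this]
      split_ifs <;> simp
    · apply Finset.sum_congr _ fun _ _ => rfl
      ext a
      simp only [Finset.mem_filter]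
      constructor
      · rintro ⟨h3, h4, h5⟩; exact ⟨h3, by omega⟩
      · rintro ⟨h3, h4⟩; exact ⟨h3, by omega, by omega⟩
  have hlow : S.filter (· < i) = S'.filter (· < i) := by
    ext a
    simp only [Finset.mem_filter]
    constructor
    · rintro ⟨h3, h4⟩; exact ⟨(hi2 a h4).1 h3, h4⟩
    · rintro ⟨h3, h4⟩; exact ⟨(hi2 a h4).2 h3, h4⟩
  obtain ⟨a, ha⟩ := lam_high z l h2 i (S.filter (i < ·)) fun j hj => (Finset.mem_filter.1 hj).2
  obtain ⟨b, hb⟩ := lam_high z l h2 i (S'.filter (i < ·)) fun j hj => (Finset.mem_filter.1 hj).2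
  obtain ⟨n, hn⟩ := h1 i
  have hzi := (hz i).ne'
  have hD : ∃ k : ℤ, lam l S - lam l S' = z i * (k + 1 / 2) := by
    rw [hdec S, hdec S', hlow, ha, hb]
    by_cases h : i ∈ S
    · have h' : i ∉ S' := fun h' => hi1 ⟨fun _ => h', fun _ => h⟩
      rw [if_pos h, if_neg h']
      refine ⟨n + a - b, ?_⟩
      rw [hn]
      push_cast
      ring
    · have h' : i ∈ S' := by
        by_contra h'
        exact hi1 ⟨fun a => absurd a h, fun a => absurd a h'⟩
      rw [if_neg h, if_pos h']
      refine ⟨-n - 1 + a - b, ?_⟩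
      rw [hn]
      push_cast
      ring
  obtain ⟨k, hk⟩ := hD
  unfold GG
  apply Finset.prod_eq_zero (Finset.mem_range.2 him)
  rw [hk]
  have e : π * (z i * (k + 1 / 2)) / z i = (2 * k + 1) * π / 2 := by
    field_simp
  rw [e]
  have : Real.cos ((2 * k + 1) * π / 2) = 0 := Real.cos_eq_zero_iff.2 ⟨k, rfl⟩
  rw [this]
  norm_num

end levels

section strichartz

variable (z l : ℕ → ℝ) (hz : ∀ i, 0 < z i) (h1 : ∀ i, ∃ n : ℤ, l i = z i * (n + 1 / 2))
  (h2 : ∀ i j, i < j → ∃ n : ℤ, l j = z i * n)
  (ν : Measure ℝ) [IsProbabilityMeasure ν] (m : ℕ → ℕ) (hm : Tendsto m atTop atTop)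
  (T : ℕ → ℝ → ℝ) (hF : ∀ n η, ‖FT ν η‖ ^ 2 = GG z (m n) η * T n η)

include hz h1 h2 hm hF in
lemma FT_lam_zero (S S' : Finset ℕ) (hne : S ≠ S') : FT ν (lam l S - lam l S') = 0 := by
  obtain ⟨M, hM⟩ : ∃ M, S ⊆ Finset.range M ∧ S' ⊆ Finset.range M := by
    refine ⟨(S ∪ S').sup id + 1, fun j hj => ?_, fun j hj => ?_⟩
    · rw [Finset.mem_range]
      have : id j ≤ (S ∪ S').sup id := Finset.le_sup (Finset.mem_union_left _ hj)
      simp only [id] at this
      omega
    · rw [Finset.mem_range]
      have : id j ≤ (S ∪ S').sup id := Finset.le_sup (Finset.mem_union_right _ hj)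
      simp only [id] at this
      omega
  obtain ⟨n, hn⟩ := (hm.eventually_ge_atTop M).exists
  have h3 := hF n (lam l S - lam l S')
  have hsub : Finset.range M ⊆ Finset.range (m n) := by
    intro j hj
    rw [Finset.mem_range] at hj ⊢
    omega
  rw [GG_zero z l hz h1 h2 (m n) S S' (hM.1.trans hsub) (hM.2.trans hsub) hne, zero_mul] at h3
  simpa using h3

include hz h1 h2 hm hF in
/-- Parseval identity for the subset sums. -/
theorem parseval_lam (hT1 : ∀ n η, T n η ≤ 1) (hTlim : ∀ η, Tendsto (fun n => T n η) atTop (𝓝 1))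
    (hlow : ∀ ξ : ℝ, ∃ c : ℝ, 0 < c ∧ ∀ᶠ n in atTop, ∀ S ∈ (Finset.range (m n)).powerset,
      c ≤ T n (ξ - lam l S)) (ξ : ℝ) :
    HasSum (fun S : Finset ℕ => ‖FT ν (ξ - lam l S)‖ ^ 2) 1 := by
  classical
  have hon := orthonormal_el ν (lam l) (fun S S' hne => FT_lam_zero z l hz h1 h2 ν m hm T hF S S' hne)
  have hsum : Summable (fun S : Finset ℕ => ‖FT ν (ξ - lam l S)‖ ^ 2) := by
    have := hon.inner_products_summable (el ν ξ)
    simpa only [inner_el] using this
  obtain ⟨c, hc, hev⟩ := hlow ξ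
  set a : ℕ → Finset ℕ → ℝ := fun n S =>
    if S ∈ (Finset.range (m n)).powerset then GG z (m n) (ξ - lam l S) else 0 with ha
  have hasum : ∀ n, ∑' S, a n S = 1 := by
    intro n
    rw [tsum_eq_sum (s := (Finset.range (m n)).powerset)]
    · rw [← sum_GG z l hz h1 h2 (m n) ξ]
      exact Finset.sum_congr rfl fun S hS => by rw [ha]; simp only [if_pos hS]
    · intro S hS
      rw [ha]; simp only [if_neg hS]
  have hlim : Tendsto (fun n => ∑' S, a n S) atTop
      (𝓝 (∑' S : Finset ℕ, ‖FT ν (ξ - lam l S)‖ ^ 2)) := by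
    refine tendsto_tsum_of_dominated_convergence (bound := fun S => c⁻¹ * ‖FT ν (ξ - lam l S)‖ ^ 2)
      (hsum.mul_left _) (fun S => ?_) ?_
    · have hSev : ∀ᶠ n in atTop, S ∈ (Finset.range (m n)).powerset := by
        filter_upwards [hm.eventually_ge_atTop (S.sup id + 1)] with n hn
        rw [Finset.mem_powerset]
        intro j hj
        rw [Finset.mem_range]
        have : id j ≤ S.sup id := Finset.le_sup hj
        simp only [id] at this
        omega
      have hG : Tendsto (fun n => GG z (m n) (ξ - lam l S)) atTop (𝓝 (‖FT ν (ξ - lam l S)‖ ^ 2)) := by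
        rw [tendsto_iff_norm_sub_tendsto_zero]
        have hz0 : Tendsto (fun n => 1 - T n (ξ - lam l S)) atTop (𝓝 0) := by
          have := (hTlim (ξ - lam l S)).const_sub 1
          simpa using this
        refine squeeze_zero (fun n => norm_nonneg _) (fun n => ?_) hz0
        rw [hF n]
        have e : GG z (m n) (ξ - lam l S) - GG z (m n) (ξ - lam l S) * T n (ξ - lam l S) =
            GG z (m n) (ξ - lam l S) * (1 - T n (ξ - lam l S)) := by ring
        rw [e, Real.norm_of_nonneg (mul_nonneg (GG_nonneg _ _ _) (by linarith [hT1 n (ξ - lam l S)]))]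
        exact mul_le_of_le_one_left (by linarith [hT1 n (ξ - lam l S)]) (GG_le_one _ _ _)
      refine hG.congr' ?_
      filter_upwards [hSev] with n hn
      rw [ha]; simp only [if_pos hn]
    · filter_upwards [hev] with n hn S
      rw [ha]
      simp only
      split_ifs with hS
      · rw [Real.norm_of_nonneg (GG_nonneg _ _ _), hF n, le_inv_mul_iff₀ hc, mul_comm]
        exact mul_le_mul_of_nonneg_left (hn S hS) (GG_nonneg _ _ _)
      · rw [norm_zero]
        positivity
  simp only [hasum] at hlim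
  have h3 := tendsto_nhds_unique hlim tendsto_const_nhds
  rw [← h3]
  exact hsum.hasSum

end strichartz

end Q83.Frac
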