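import Pool.Agent.Q83.Frac.Levels
import Pool.Agent.Q83.Frac.Exist

/-!
The self-similar measure with contraction ratio `1/12` and digits `0, 1, 8, 9` is spectral.
-/

set_option autoImplicit false
set_option linter.unusedSectionVars false
open MeasureTheory Filter Topology
open scoped ENNReal Real

namespace Q83.Frac.Twelve

open Q83.Frac

/-- The digits. -/
def D : Fin 4 → ℤ := ![0, 1, 8, 9]

/-- The digits as real numbers. -/
noncomputable def dr (i : Fin 4) : ℝ := (D i : ℝ)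

/-- The self-similar measure. -/
noncomputable def nu : Measure ℝ := inv (ι := Fin 4) dr 12

instance instProbNu : IsProbabilityMeasure nu := isProb_inv dr 12 (by norm_num)

lemma nu_eq : nu = (4 : ℝ≥0∞)⁻¹ • ∑ i : Fin 4, nu.map (fun x => (x + dr i) / 12) := by
  have := inv_eq (ι := Fin 4) dr 12 (by norm_num)
  unfold nu
  simpa using this

lemma measurable_map (i : Fin 4) : Measurable fun x : ℝ => (x + dr i) / 12 :=
  (measurable_id.add_const _).div_const _

/-- The mask. -/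
noncomputable def mask (t : ℝ) : ℂ := (4 : ℂ)⁻¹ * ∑ i : Fin 4, ee t (dr i)

lemma FT_rec (ξ : ℝ) : FT nu ξ = mask (ξ / 12) * FT nu (ξ / 12) := by
  have hint : ∀ i : Fin 4, ∫ x, ee ξ x ∂(nu.map fun x => (x + dr i) / 12) =
      ee (ξ / 12) (dr i) * FT nu (ξ / 12) := by
    intro i
    rw [integral_map (measurable_map i).aemeasurable (continuous_ee ξ).aestronglyMeasurable]
    unfold FT
    rw [← integral_const_mul]
    congr 1
    funext x
    unfold ee
    rw [← Complex.exp_add]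
    congr 1
    push_cast
    ring
  have hi : ∀ i : Fin 4, Integrable (ee ξ) (nu.map fun x => (x + dr i) / 12) := by
    intro i
    have : IsProbabilityMeasure (nu.map fun x => (x + dr i) / 12) :=
      Measure.isProbabilityMeasure_map (measurable_map i).aemeasurable
    exact (memLp_ee _ ξ).integrable (by norm_num)
  unfold FT
  conv_lhs => rw [nu_eq]
  rw [integral_smul_measure, integral_finsetSum_measure fun i _ => hi i]
  simp only [hint]
  rw [← Finset.sum_mul]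
  unfold mask FT
  rw [ENNReal.toReal_inv, ENNReal.toReal_ofNat, Complex.real_smul, mul_assoc]
  push_cast
  ring

lemma norm_mask (t : ℝ) : ‖mask t‖ ^ 2 = Real.cos (π * t) ^ 2 * Real.cos (8 * π * t) ^ 2 := by
  have hf : mask t = ((1 + ee t 1) / 2) * ((1 + ee t 8) / 2) := by
    unfold mask
    rw [Fin.sum_univ_four]
    have e0 : ee t (dr 0) = 1 := by unfold ee dr D; simp
    have e1 : ee t (dr 1) = ee t 1 := by unfold dr D; simp
    have e2 : ee t (dr 2) = ee t 8 := by unfold dr D; simp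
    have e3 : ee t (dr 3) = ee t 1 * ee t 8 := by
      unfold ee dr D
      rw [← Complex.exp_add]
      congr 1
      simp
      ring
    rw [e0, e1, e2, e3]
    ring
  have hhalf : ∀ s : ℝ, ‖(1 + ee t s) / 2‖ ^ 2 = Real.cos (π * (t * s)) ^ 2 := by
    intro s
    have h1 : (1 + ee t s) / 2 = Complex.exp (((π * (t * s) : ℝ) : ℂ) * Complex.I) *
        ((Real.cos (π * (t * s)) : ℝ) : ℂ) := by
      rw [Complex.ofReal_cos, Complex.cos, ee_eq]
      rw [mul_div_assoc', mul_add, ← Complex.exp_add, ← Complex.exp_add]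
      congr 1
      rw [add_comm]
      congr 1
      · congr 1
        push_cast
        ring
      · rw [← Complex.exp_zero]
        congr 1
        push_cast
        ring
    rw [h1, norm_mul, Complex.norm_exp_ofReal_mul_I, one_mul, Complex.norm_real, Real.norm_eq_abs,
      sq_abs]
  rw [hf, norm_mul, mul_pow, hhalf, hhalf]
  congr 3 <;> ring

lemma norm_rec (ξ : ℝ) : ‖FT nu ξ‖ ^ 2 =
    Real.cos (π * (ξ / 12)) ^ 2 * Real.cos (8 * π * (ξ / 12)) ^ 2 * ‖FT nu (ξ / 12)‖ ^ 2 := by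
  rw [FT_rec, norm_mul, mul_pow, norm_mask]

/-- The levels. -/
noncomputable def zz : ℕ → ℝ
  | 0 => 3 / 2
  | (n + 1) => (if n % 2 = 0 then 18 else 12) * 12 ^ (n / 2)

/-- The generators of the spectrum. -/
noncomputable def ll : ℕ → ℝ
  | 0 => 3 / 4
  | (n + 1) => (if n % 2 = 0 then 9 else 18) * 12 ^ (n / 2)

lemma zz_odd (k : ℕ) : zz (2 * k + 1) = 18 * 12 ^ k := by
  have h1 : (2 * k) % 2 = 0 := by omega
  have h2 : (2 * k) / 2 = k := by omega
  simp only [zz, h1, if_true, h2]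

lemma zz_even (k : ℕ) : zz (2 * k + 2) = 12 * 12 ^ k := by
  have h1 : ¬ (2 * k + 1) % 2 = 0 := by omega
  have h2 : (2 * k + 1) / 2 = k := by omega
  simp only [zz, h1, if_false, h2]

lemma ll_odd (k : ℕ) : ll (2 * k + 1) = 9 * 12 ^ k := by
  have h1 : (2 * k) % 2 = 0 := by omega
  have h2 : (2 * k) / 2 = k := by omega
  simp only [ll, h1, if_true, h2]

lemma ll_even (k : ℕ) : ll (2 * k + 2) = 18 * 12 ^ k := by
  have h1 : ¬ (2 * k + 1) % 2 = 0 := by omega
  have h2 : (2 * k + 1) / 2 = k := by omega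
  simp only [ll, h1, if_false, h2]

lemma cases3 (i : ℕ) : i = 0 ∨ (∃ k, i = 2 * k + 1) ∨ ∃ k, i = 2 * k + 2 := by
  rcases Nat.eq_zero_or_pos i with h | h
  · exact Or.inl h
  · rcases Nat.even_or_odd' i with ⟨k, hk | hk⟩
    · exact Or.inr (Or.inr ⟨k - 1, by omega⟩)
    · exact Or.inr (Or.inl ⟨k, hk⟩)

lemma zz_pos (i : ℕ) : 0 < zz i := by
  rcases cases3 i with rfl | ⟨k, rfl⟩ | ⟨k, rfl⟩
  · norm_num [zz]
  · rw [zz_odd]; positivity
  · rw [zz_even]; positivity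

lemma ll_half (i : ℕ) : ∃ n : ℤ, ll i = zz i * (n + 1 / 2) := by
  rcases cases3 i with rfl | ⟨k, rfl⟩ | ⟨k, rfl⟩
  · exact ⟨0, by norm_num [zz, ll]⟩
  · exact ⟨0, by rw [zz_odd, ll_odd]; push_cast; ring⟩
  · exact ⟨1, by rw [zz_even, ll_even]; push_cast; ring⟩

lemma ll_int (i j : ℕ) (hij : i < j) : ∃ n : ℤ, ll j = zz i * n := by
  rcases cases3 i with rfl | ⟨a, rfl⟩ | ⟨a, rfl⟩ <;> rcases cases3 j with rfl | ⟨b, rfl⟩ | ⟨b, rfl⟩
  · omega
  · exact ⟨6 * 12 ^ b, by rw [ll_odd]; simp only [zz]; push_cast; ring⟩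
  · exact ⟨12 * 12 ^ b, by rw [ll_even]; simp only [zz]; push_cast; ring⟩
  · omega
  · obtain ⟨c, rfl⟩ := Nat.exists_eq_add_of_lt (by omega : a < b)
    exact ⟨6 * 12 ^ c, by rw [ll_odd, zz_odd, pow_succ, pow_add]; push_cast; ring⟩
  · obtain ⟨c, rfl⟩ := Nat.exists_eq_add_of_le (by omega : a ≤ b)
    exact ⟨12 ^ c, by rw [ll_even, zz_odd, pow_add]; push_cast; ring⟩
  · omega
  · obtain ⟨c, rfl⟩ := Nat.exists_eq_add_of_lt (by omega : a < b)
    exact ⟨9 * 12 ^ c, by rw [ll_odd, zz_even, pow_succ, pow_add]; push_cast; ring⟩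
  · obtain ⟨c, rfl⟩ := Nat.exists_eq_add_of_lt (by omega : a < b)
    exact ⟨18 * 12 ^ c, by rw [ll_even, zz_even, pow_succ, pow_add]; push_cast; ring⟩

/-- The remainder factor. -/
noncomputable def TT (n : ℕ) (η : ℝ) : ℝ :=
  Real.cos (π * (η / 12 ^ (n + 1))) ^ 2 * ‖FT nu (η / 12 ^ (n + 1))‖ ^ 2

lemma product (n : ℕ) (η : ℝ) : ‖FT nu η‖ ^ 2 = GG zz (2 * n + 1) η * TT n η := by
  induction n with
  | zero =>
    rw [norm_rec]
    unfold GG TT
    simp only [mul_zero, zero_add, Finset.prod_range_one, pow_one]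
    have : 8 * π * (η / 12) = π * η / zz 0 := by
      simp only [zz]; field_simp; ring
    rw [this]
    ring
  | succ n ih =>
    rw [ih]
    have e1 : GG zz (2 * (n + 1) + 1) η = GG zz (2 * n + 1) η *
        Real.cos (π * η / zz (2 * n + 1)) ^ 2 * Real.cos (π * η / zz (2 * n + 2)) ^ 2 := by
      unfold GG
      have : 2 * (n + 1) + 1 = 2 * n + 1 + 1 + 1 := by ring
      rw [this, Finset.prod_range_succ, Finset.prod_range_succ]
    rw [e1]
    unfold TT
    rw [norm_rec (η / 12 ^ (n + 1)), zz_odd, zz_even]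
    have e2 : η / 12 ^ (n + 1) / 12 = η / 12 ^ (n + 1 + 1) := by
      rw [div_div, ← pow_succ]
    have e3 : π * (η / 12 ^ (n + 1)) = π * η / (12 * 12 ^ n) := by
      rw [pow_succ]; field_simp
    have e4 : 8 * π * (η / 12 ^ (n + 1 + 1)) = π * η / (18 * 12 ^ n) := by
      rw [pow_succ, pow_succ]; field_simp; ring
    rw [e2, e3, e4]
    ring

lemma TT_le_one (n : ℕ) (η : ℝ) : TT n η ≤ 1 := by
  unfold TT
  have h1 : ‖FT nu (η / 12 ^ (n + 1))‖ ≤ 1 := by
    unfold FT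
    refine (norm_integral_le_integral_norm _).trans ?_
    simp only [norm_ee]
    simp
  have h2 := Real.cos_sq_le_one (π * (η / 12 ^ (n + 1)))
  have h3 : ‖FT nu (η / 12 ^ (n + 1))‖ ^ 2 ≤ 1 := pow_le_one₀ (norm_nonneg _) h1
  calc _ ≤ 1 * 1 := mul_le_mul h2 h3 (by positivity) (by norm_num)
    _ = 1 := by norm_num

lemma FT_eq_charFun (ξ : ℝ) : FT nu ξ = charFun nu (2 * π * ξ) := by
  rw [charFun_apply_real]
  unfold FT ee
  congr 1
  funext x
  congr 1
  push_cast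
  ring

lemma continuous_FT : Continuous (FT nu) := by
  have h : FT nu = fun ξ => charFun nu (2 * π * ξ) := funext FT_eq_charFun
  rw [h]
  exact continuous_charFun.comp (by fun_prop)

lemma TT_tendsto (η : ℝ) : Tendsto (fun n => TT n η) atTop (𝓝 1) := by
  have h0 : Tendsto (fun n : ℕ => η / 12 ^ (n + 1)) atTop (𝓝 0) := by
    have h1 : Tendsto (fun n : ℕ => (12 : ℝ) ^ (n + 1)) atTop atTop :=
      (tendsto_pow_atTop_atTop_of_one_lt (by norm_num)).comp (tendsto_add_atTop_nat 1)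
    exact tendsto_const_nhds.div_atTop h1
  have hc : Continuous fun s : ℝ => Real.cos (π * s) ^ 2 * ‖FT nu s‖ ^ 2 := by
    have := continuous_FT
    fun_prop
  have h2 := (hc.tendsto 0).comp h0
  simp only [mul_zero, Real.cos_zero, FT_zero, norm_one, one_pow, mul_one] at h2
  exact h2

lemma cos_sq_ge {x : ℝ} (hx : |x| ≤ 1) : 1 / 4 ≤ Real.cos x ^ 2 := by
  have h1 := Real.one_sub_sq_div_two_le_cos (x := x)
  have h2 : x ^ 2 ≤ 1 := by
    rw [← sq_abs]
    exact pow_le_one₀ (abs_nonneg _) hx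
  nlinarith

lemma lower_iter (K : ℕ) (t : ℝ) (ht : |t| ≤ 3 / 10) :
    (1 / 16) ^ K * ‖FT nu (t / 12 ^ K)‖ ^ 2 ≤ ‖FT nu t‖ ^ 2 := by
  induction K with
  | zero => simp
  | succ K ih =>
    refine le_trans ?_ ih
    rw [norm_rec (t / 12 ^ K)]
    have hpi := Real.pi_lt_d2
    have hpi0 := Real.pi_pos
    have h1 : |t / 12 ^ K| ≤ 3 / 10 := by
      rw [abs_div, abs_of_pos (by positivity : (0:ℝ) < 12 ^ K)]
      have : (1:ℝ) ≤ 12 ^ K := one_le_pow₀ (by norm_num)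
      exact (div_le_self (abs_nonneg _) this).trans ht
    have h2 : 1 / 4 ≤ Real.cos (π * (t / 12 ^ K / 12)) ^ 2 := by
      apply cos_sq_ge
      rw [abs_mul, abs_of_pos hpi0, abs_div _ (12:ℝ), abs_of_pos (by norm_num : (0:ℝ) < 12)]
      nlinarith [abs_nonneg (t / 12 ^ K)]
    have h3 : 1 / 4 ≤ Real.cos (8 * π * (t / 12 ^ K / 12)) ^ 2 := by
      apply cos_sq_ge
      rw [abs_mul, abs_of_pos (by positivity : (0:ℝ) < 8 * π), abs_div _ (12:ℝ),
        abs_of_pos (by norm_num : (0:ℝ) < 12)]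
      nlinarith [abs_nonneg (t / 12 ^ K)]
    have e1 : t / 12 ^ K / 12 = t / 12 ^ (K + 1) := by rw [div_div, ← pow_succ]
    have h4 : 1 / 16 ≤ Real.cos (π * (t / 12 ^ K / 12)) ^ 2 *
        Real.cos (8 * π * (t / 12 ^ K / 12)) ^ 2 := by nlinarith
    rw [e1] at h4 ⊢
    calc (1 / 16 : ℝ) ^ (K + 1) * ‖FT nu (t / 12 ^ (K + 1))‖ ^ 2
        = (1 / 16) ^ K * (1 / 16 * ‖FT nu (t / 12 ^ (K + 1))‖ ^ 2) := by ring
      _ ≤ _ := by gcongr

lemma lower_FT : ∃ c : ℝ, 0 < c ∧ ∀ t : ℝ, |t| ≤ 3 / 10 →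
    c ≤ Real.cos (π * t) ^ 2 * ‖FT nu t‖ ^ 2 := by
  have hcont : Tendsto (fun s => ‖FT nu s‖ ^ 2) (𝓝 0) (𝓝 1) := by
    have hc : Continuous fun s => ‖FT nu s‖ ^ 2 := continuous_FT.norm.pow 2
    have := hc.tendsto 0
    rwa [FT_zero, norm_one, one_pow] at this
  obtain ⟨δ, hδ, hball⟩ := Metric.eventually_nhds_iff.1 (hcont.eventually (lt_mem_nhds
    (show (1 / 2 : ℝ) < 1 by norm_num)))
  obtain ⟨K, hK⟩ := pow_unbounded_of_one_lt (1 / δ) (show (1:ℝ) < 12 by norm_num)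
  refine ⟨1 / 4 * ((1 / 16) ^ K * (1 / 2)), by positivity, fun t ht => ?_⟩
  have h1 : 1 / 4 ≤ Real.cos (π * t) ^ 2 := by
    apply cos_sq_ge
    rw [abs_mul, abs_of_pos Real.pi_pos]
    nlinarith [abs_nonneg t, Real.pi_lt_d2, Real.pi_pos]
  have h2 : (1 / 2 : ℝ) ≤ ‖FT nu (t / 12 ^ K)‖ ^ 2 := by
    apply le_of_lt
    apply hball
    rw [Real.dist_eq, sub_zero, abs_div, abs_of_pos (by positivity : (0:ℝ) < 12 ^ K),
      div_lt_iff₀ (by positivity)]
    rw [div_lt_iff₀ hδ] at hK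
    nlinarith
  have h3 := lower_iter K t ht
  have h4 : (1 / 16 : ℝ) ^ K * (1 / 2) ≤ ‖FT nu t‖ ^ 2 :=
    (mul_le_mul_of_nonneg_left h2 (by positivity)).trans h3
  exact mul_le_mul h1 h4 (by positivity) (by positivity)

lemma ll_nonneg (i : ℕ) : 0 ≤ ll i := by
  rcases cases3 i with rfl | ⟨k, rfl⟩ | ⟨k, rfl⟩
  · norm_num [ll]
  · rw [ll_odd]; positivity
  · rw [ll_even]; positivity

lemma sum_ll (n : ℕ) : ∑ j ∈ Finset.range (2 * n + 1), ll j ≤ 27 / 11 * 12 ^ n - 27 / 11 + 3 / 4 := by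
  induction n with
  | zero => simp [ll]
  | succ n ih =>
    have : 2 * (n + 1) + 1 = 2 * n + 1 + 1 + 1 := by ring
    rw [this, Finset.sum_range_succ, Finset.sum_range_succ, ll_odd]
    have e : 2 * n + 1 + 1 = 2 * n + 2 := rfl
    rw [e, ll_even, pow_succ]
    linarith

lemma lam_bound (n : ℕ) (S : Finset ℕ) (hS : S ⊆ Finset.range (2 * n + 1)) :
    0 ≤ lam ll S ∧ lam ll S ≤ 27 / 11 * 12 ^ n := by
  unfold lam
  refine ⟨Finset.sum_nonneg fun j _ => ll_nonneg j, ?_⟩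
  have h1 : ∑ j ∈ S, ll j ≤ ∑ j ∈ Finset.range (2 * n + 1), ll j :=
    Finset.sum_le_sum_of_subset_of_nonneg hS fun j _ _ => ll_nonneg j
  have h2 := sum_ll n
  linarith

lemma hlow (ξ : ℝ) : ∃ c : ℝ, 0 < c ∧ ∀ᶠ n in atTop,
    ∀ S ∈ (Finset.range (2 * n + 1)).powerset, c ≤ TT n (ξ - lam ll S) := by
  obtain ⟨c, hc, hcb⟩ := lower_FT
  refine ⟨c, hc, ?_⟩
  have h1 : Tendsto (fun n : ℕ => (12 : ℝ) ^ (n + 1)) atTop atTop :=
    (tendsto_pow_atTop_atTop_of_one_lt (by norm_num)).comp (tendsto_add_atTop_nat 1)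
  filter_upwards [h1.eventually_ge_atTop (20 * |ξ|)] with n hn S hS
  obtain ⟨b1, b2⟩ := lam_bound n S (Finset.mem_powerset.1 hS)
  apply hcb
  have hp : (0:ℝ) < 12 ^ (n + 1) := by positivity
  rw [abs_div, abs_of_pos hp, div_le_iff₀ hp]
  have h3 : |ξ - lam ll S| ≤ |ξ| + lam ll S := by
    have := abs_sub ξ (lam ll S)
    rwa [abs_of_nonneg b1] at this
  have h4 : (12:ℝ) ^ (n + 1) = 12 * 12 ^ n := by rw [pow_succ]; ring
  rw [h4] at hn ⊢
  have h5 : (0:ℝ) < 12 ^ n := by positivity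
  linarith

lemma hm : Tendsto (fun n : ℕ => 2 * n + 1) atTop atTop :=
  tendsto_atTop_mono (fun n => by simp only [id]; omega) tendsto_id

/-- Orthogonality. -/
lemma orth (S S' : Finset ℕ) (hne : S ≠ S') : FT nu (lam ll S - lam ll S') = 0 :=
  FT_lam_zero zz ll zz_pos ll_half ll_int nu _ hm TT product S S' hne

/-- The spectrum is complete. -/
theorem complete (f : ℝ → ℂ) (hf : MemLp f 2 nu)
    (h0 : ∀ S : Finset ℕ, ∫ x, f x * ee (-lam ll S) x ∂nu = 0) : f =ᵐ[nu] 0 :=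
  complete_of_parseval nu (lam ll) orth
    (parseval_lam zz ll zz_pos ll_half ll_int nu _ hm TT product TT_le_one TT_tendsto hlow) f hf h0

end Q83.Frac.Twelve
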