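import Pool.Agent.Q83.Frac.Twelve

/-!
The measure of `Twelve` as a measure on `Fin 1 → ℝ`, and the digits as a finite set.
-/

set_option autoImplicit false
set_option linter.unusedSectionVars false
open MeasureTheory Filter Topology Matrix
open scoped ENNReal Real

namespace Q83.Frac.Twelve

/-- The expanding matrix. -/
def RM : Matrix (Fin 1) (Fin 1) ℤ := Matrix.of fun _ _ => 12

/-- The digit vectors. -/
def dv (i : Fin 4) : Fin 1 → ℤ := fun _ => D i

lemma D_inj : Function.Injective D := by decide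

lemma dv_inj : Function.Injective dv := fun i j h => D_inj (congrFun h 0)

/-- The digit set. -/
def BM : Finset (Fin 1 → ℤ) := Finset.univ.image dv

lemma card_BM : BM.card = 4 := by
  unfold BM
  rw [Finset.card_image_of_injective _ dv_inj]
  rfl

lemma sum_BM {M : Type} [AddCommMonoid M] (g : (Fin 1 → ℤ) → M) :
    ∑ b ∈ BM, g b = ∑ i : Fin 4, g (dv i) := by
  unfold BM
  rw [Finset.sum_image (fun i _ j _ h => dv_inj h)]

lemma det_RM : RM.det = 12 := by
  rw [Matrix.det_fin_one]; rfl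

lemma inv_RM : (RM.map (Int.cast : ℤ → ℝ))⁻¹ = Matrix.of fun _ _ => (12 : ℝ)⁻¹ := by
  apply Matrix.inv_eq_left_inv
  ext i j
  have hi : i = 0 := Subsingleton.elim _ _
  have hj : j = 0 := Subsingleton.elim _ _
  subst hi
  subst hj
  rw [Matrix.mul_apply, Fin.sum_univ_one, Matrix.map_apply, Matrix.one_apply_eq, Matrix.of_apply]
  unfold RM
  rw [Matrix.of_apply]
  norm_num

lemma inv_mulVec (v : Fin 1 → ℝ) : (RM.map (Int.cast : ℤ → ℝ))⁻¹ *ᵥ v = fun _ => v 0 / 12 := by
  rw [inv_RM]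
  funext i
  simp only [Matrix.mulVec, dotProduct, Finset.univ_unique, Fin.default_eq_zero,
    Finset.sum_singleton, Matrix.of_apply]
  ring

lemma charpoly_root (z : ℂ) (hz : (RM.map (Int.cast : ℤ → ℂ)).charpoly.IsRoot z) : 1 < ‖z‖ := by
  rw [Matrix.charpoly, Matrix.det_fin_one] at hz
  simp only [Matrix.charmatrix_apply, RM, Matrix.map_apply, Matrix.of_apply, Matrix.diagonal_apply_eq,
    Polynomial.IsRoot.def, Polynomial.eval_sub, Polynomial.eval_X, Polynomial.eval_C] at hz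
  have h1 : z = 12 := by
    rw [sub_eq_zero] at hz
    rw [hz]
    norm_num
  rw [h1]
  norm_num

lemma simple_digits (b : Fin 1 → ℤ) (hb : b ∈ BM) (b' : Fin 1 → ℤ) (hb' : b' ∈ BM) (hne : b ≠ b') :
    ¬ ∃ v : Fin 1 → ℤ, RM *ᵥ v = b - b' := by
  rintro ⟨v, hv⟩
  unfold BM at hb hb'
  obtain ⟨i, -, rfl⟩ := Finset.mem_image.1 hb
  obtain ⟨j, -, rfl⟩ := Finset.mem_image.1 hb'
  have h1 := congrFun hv 0
  simp only [Matrix.mulVec, dotProduct, Finset.univ_unique, Fin.default_eq_zero, RM, Matrix.of_apply,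
    Finset.sum_singleton, Pi.sub_apply, dv] at h1
  have hij : i ≠ j := fun h => hne (by rw [h])
  have h2 : ∀ i j : Fin 4, i ≠ j → (D i - D j) % 12 ≠ 0 := by decide
  apply h2 i j hij
  omega

lemma closure_top : AddSubgroup.closure {v : Fin 1 → ℤ | ∃ k : ℕ, ∃ b ∈ BM, v = (RM ^ k) *ᵥ b} =
    ⊤ := by
  rw [eq_top_iff]
  intro v _
  have h1 : (fun _ => 1 : Fin 1 → ℤ) ∈
      AddSubgroup.closure {v : Fin 1 → ℤ | ∃ k : ℕ, ∃ b ∈ BM, v = (RM ^ k) *ᵥ b} := by
    apply AddSubgroup.subset_closure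
    refine ⟨0, fun _ => 1, ?_, ?_⟩
    · unfold BM
      exact Finset.mem_image.2 ⟨1, Finset.mem_univ _, rfl⟩
    · rw [pow_zero, Matrix.one_mulVec]
  have h2 : v = v 0 • (fun _ => 1 : Fin 1 → ℤ) := by
    funext i
    fin_cases i
    simp
  rw [h2]
  exact AddSubgroup.zsmul_mem _ h1 _

lemma zero_mem_BM : (0 : Fin 1 → ℤ) ∈ BM := by
  unfold BM
  exact Finset.mem_image.2 ⟨0, Finset.mem_univ _, rfl⟩

/-- The measure on `Fin 1 → ℝ`. -/
noncomputable def muM : Measure (Fin 1 → ℝ) := nu.map fun x _ => x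

lemma measurable_diag : Measurable fun (x : ℝ) (_ : Fin 1) => x :=
  measurable_pi_lambda _ fun _ => measurable_id

instance instProbMuM : IsProbabilityMeasure muM :=
  Measure.isProbabilityMeasure_map measurable_diag.aemeasurable

lemma muM_eq : muM = ((BM.card : ℝ≥0∞)⁻¹) • ∑ b ∈ BM,
    muM.map (fun x => (RM.map (Int.cast : ℤ → ℝ))⁻¹ *ᵥ (x + fun i => (b i : ℝ))) := by
  have hm : ∀ b : Fin 1 → ℤ, Measurable fun x : Fin 1 → ℝ =>
      (RM.map (Int.cast : ℤ → ℝ))⁻¹ *ᵥ (x + fun i => (b i : ℝ)) := by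
    intro b
    simp only [inv_mulVec]
    refine measurable_pi_lambda _ fun _ => ?_
    exact ((measurable_pi_apply 0).add_const _).div_const _
  rw [card_BM, sum_BM]
  unfold muM
  conv_lhs => rw [nu_eq]
  rw [Measure.map_smul, Measure.map_finset_sum measurable_diag.aemeasurable]
  congr 1
  refine Finset.sum_congr rfl fun i _ => ?_
  rw [Measure.map_map measurable_diag (measurable_map i), Measure.map_map (hm _) measurable_diag]
  congr 1
  funext x
  simp only [Function.comp, inv_mulVec]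
  rfl

lemma integral_muM (g : (Fin 1 → ℝ) → ℂ) (hg : AEStronglyMeasurable g muM) :
    ∫ x, g x ∂muM = ∫ x, g (fun _ => x) ∂nu := by
  unfold muM at hg ⊢
  rw [integral_map measurable_diag.aemeasurable hg]

/-- The spectrum as a set of vectors. -/
def spec : Set (Fin 1 → ℝ) := Set.range fun (S : Finset ℕ) (_ : Fin 1) => lam ll S

lemma spec_orth (l : Fin 1 → ℝ) (hl : l ∈ spec) (l' : Fin 1 → ℝ) (hl' : l' ∈ spec) :
    (l = l' → ∫ x, Complex.exp (2 * π * Complex.I * ((∑ i, (l i - l' i) * x i : ℝ) : ℂ)) ∂muM = 1) ∧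
    (l ≠ l' → ∫ x, Complex.exp (2 * π * Complex.I * ((∑ i, (l i - l' i) * x i : ℝ) : ℂ)) ∂muM = 0) := by
  obtain ⟨S, rfl⟩ := hl
  obtain ⟨S', rfl⟩ := hl'
  have h1 : ∫ x, Complex.exp (2 * π * Complex.I *
      ((∑ i : Fin 1, (lam ll S - lam ll S') * x i : ℝ) : ℂ)) ∂muM = FT nu (lam ll S - lam ll S') := by
    have hc : Continuous fun x : Fin 1 → ℝ => Complex.exp (2 * π * Complex.I *
      ((∑ i : Fin 1, (lam ll S - lam ll S') * x i : ℝ) : ℂ)) := by
      refine Complex.continuous_exp.comp (continuous_const.mul (Complex.continuous_ofReal.comp ?_))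
      exact continuous_finsetSum _ fun i _ => continuous_const.mul (continuous_apply i)
    rw [integral_muM _ hc.aestronglyMeasurable]
    unfold FT ee
    congr 1
    funext x
    simp
  simp only [h1]
  constructor
  · intro h
    have h2 : lam ll S = lam ll S' := congrFun h 0
    rw [h2, sub_self, FT_zero]
  · intro h
    apply orth
    intro h2
    exact h (by rw [h2])

lemma spec_complete (f : (Fin 1 → ℝ) → ℂ) (hf : MemLp f 2 muM)
    (h0 : ∀ l ∈ spec, ∫ x, f x * Complex.exp (-(2 * π * Complex.I * ((∑ i, l i * x i : ℝ) : ℂ))) ∂muM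
      = 0) : f =ᵐ[muM] 0 := by
  have hmp : MeasurePreserving (fun (x : ℝ) (_ : Fin 1) => x) nu muM := ⟨measurable_diag, rfl⟩
  have hg : MemLp (fun x : ℝ => f fun _ => x) 2 nu := hf.comp_measurePreserving hmp
  have h1 : (fun x : ℝ => f fun _ => x) =ᵐ[nu] 0 := by
    apply complete _ hg
    intro S
    have h2 := h0 _ ⟨S, rfl⟩
    have hc : Continuous fun x : Fin 1 → ℝ => Complex.exp (-(2 * π * Complex.I *
      ((∑ i : Fin 1, (lam ll S) * x i : ℝ) : ℂ))) := by
      refine Complex.continuous_exp.comp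
        (continuous_const.mul (Complex.continuous_ofReal.comp ?_)).neg
      exact continuous_finsetSum _ fun i _ => continuous_const.mul (continuous_apply i)
    rw [integral_muM (fun x : Fin 1 → ℝ => f x * Complex.exp (-(2 * π * Complex.I *
      ((∑ i : Fin 1, (lam ll S) * x i : ℝ) : ℂ)))) (hf.1.mul hc.aestronglyMeasurable)] at h2
    rw [← h2]
    congr 1
    funext x
    congr 1
    unfold ee
    congr 1
    simp
  -- go back
  obtain ⟨g, hgm, hgf⟩ := hf.1
  have h3 : ∀ᵐ x ∂nu, g (fun _ => x) = 0 := by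
    filter_upwards [h1, hmp.quasiMeasurePreserving.ae_eq_comp hgf] with x hx hx2
    simp only [Function.comp, Pi.zero_apply] at hx hx2
    rw [← hx2, hx]
  have h4 : g =ᵐ[muM] 0 := by
    unfold muM
    rw [Filter.EventuallyEq, ae_map_iff measurable_diag.aemeasurable
      (hgm.measurableSet_eq_fun stronglyMeasurable_zero)]
    exact h3
  exact hgf.trans h4

/-- There is no Hadamard triple. -/
lemma no_hadamard : ¬ ∃ L : Finset (Fin 1 → ℤ), L.card = BM.card ∧
    ∀ l ∈ L, ∀ l' ∈ L,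
      (l = l' → ∑ b ∈ BM, Complex.exp (2 * π * Complex.I *
          ((∑ i, ((RM.map (Int.cast : ℤ → ℝ))⁻¹ *ᵥ (fun j => (b j : ℝ))) i *
            ((l i : ℝ) - (l' i : ℝ)) : ℝ) : ℂ)) = (BM.card : ℂ)) ∧
      (l ≠ l' → ∑ b ∈ BM, Complex.exp (2 * π * Complex.I *
          ((∑ i, ((RM.map (Int.cast : ℤ → ℝ))⁻¹ *ᵥ (fun j => (b j : ℝ))) i *
            ((l i : ℝ) - (l' i : ℝ)) : ℝ) : ℂ)) = 0) := by
  rintro ⟨L, hL, h⟩
  have key : ∀ l ∈ L, ∀ l' ∈ L, l ≠ l' → (l 0 - l' 0) % 12 = 6 := by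
    intro l hl l' hl' hne
    have h1 := (h l hl l' hl').2 hne
    rw [sum_BM] at h1
    set n : ℤ := l 0 - l' 0 with hn
    have h2 : ∀ i : Fin 4, Complex.exp (2 * π * Complex.I *
        ((∑ k, ((RM.map (Int.cast : ℤ → ℝ))⁻¹ *ᵥ (fun j => (dv i j : ℝ))) k *
          ((l k : ℝ) - (l' k : ℝ)) : ℝ) : ℂ)) = ee ((n : ℝ) / 12) (dr i) := by
      intro i
      unfold ee dr
      congr 2
      rw [inv_mulVec]
      simp only [Finset.univ_unique, Fin.default_eq_zero, Finset.sum_singleton, dv, hn]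
      push_cast
      ring
    simp only [h2] at h1
    have h3 : ‖mask ((n : ℝ) / 12)‖ ^ 2 = 0 := by
      unfold mask
      rw [h1]
      simp
    rw [norm_mask, mul_eq_zero] at h3
    rcases h3 with h3 | h3
    · have h4 : Real.cos (π * ((n : ℝ) / 12)) = 0 := by simpa using h3
      obtain ⟨k, hk⟩ := Real.cos_eq_zero_iff.1 h4
      have h5 : (n : ℝ) = 12 * k + 6 := by
        have hpi := Real.pi_ne_zero
        field_simp at hk
        linarith
      have h6 : n = 12 * k + 6 := by exact_mod_cast h5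
      omega
    · exfalso
      have h4 : Real.cos (8 * π * ((n : ℝ) / 12)) = 0 := by simpa using h3
      obtain ⟨k, hk⟩ := Real.cos_eq_zero_iff.1 h4
      have h5 : 4 * (n : ℝ) = 3 * (2 * k + 1) := by
        have hpi := Real.pi_ne_zero
        field_simp at hk
        linarith
      have h6 : 4 * n = 3 * (2 * k + 1) := by exact_mod_cast h5
      omega
  rw [card_BM] at hL
  obtain ⟨a, ha, b, hb, c, hc, hab, hac, hbc⟩ := Finset.two_lt_card.1 (by omega : 2 < L.card)
  have k1 := key a ha b hb hab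
  have k2 := key b hb c hc hbc
  have k3 := key a ha c hc hac
  omega

end Q83.Frac.Twelve
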